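import Pool.Agent.Lib.MP_f51cdd_lc.Seu.Logic

/-!
Complete representations and elementary equivalence of relation algebras.
-/

namespace Pool.Agent.Lib.MP_f51cdd_lc.Seu

open RelAlg

/-- `A` is completely representable: it embeds into the algebra of all subrelations of an
equivalence relation `E`, and every supremum that exists in `A` is sent to the union. -/
def IsCRA (A : Type) [BooleanAlgebra A] [RelAlg A] : Prop :=
  ∃ (U : Type) (E : SetRel U U) (h : A → SetRel U U), Equivalence (fun u v => (u, v) ∈ E) ∧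
    Function.Injective h ∧ h ⊥ = ∅ ∧ h ⊤ = E ∧ (∀ a b, h (a ⊔ b) = h a ∪ h b) ∧
    (∀ a, h aᶜ = E \ h a) ∧ (∀ a b, h (comp a b) = (h a).comp (h b)) ∧
    (∀ a, h (conv a) = (h a).inv) ∧ h ident = SetRel.id ∧
    ∀ (S : Set A) (s : A), IsLUB S s → h s = ⋃ a ∈ S, h a

/-- `A` and `B` satisfy the same first-order sentences, in any number of variables. -/
def ElEq (A B : Type) [BooleanAlgebra A] [RelAlg A] [BooleanAlgebra B] [RelAlg B] : Prop :=
  ∀ (m : ℕ) (φ : Fm m), φ.free = ∅ → (Models A φ ↔ Models B φ)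

end Pool.Agent.Lib.MP_f51cdd_lc.Seu
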