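import Pool.Agent.Lib.MP_f51cdd_lc.Cr.CDefs

/-!
A chain that meets countably many demands, each raised by one of its own members; the formulas
are countable.
-/

namespace Pool.Agent.Lib.MP_f51cdd_lc.Seu

theorem exists_chain {S : Type} [Preorder S] (D : S → Set (S → Prop))
    (hc : ∀ s, (D s).Countable) (hd : ∀ s, ∀ P ∈ D s, ∀ t, s ≤ t → ∃ u, t ≤ u ∧ P u) (s₀ : S) :
    ∃ c : ℕ → S, Monotone c ∧ c 0 = s₀ ∧ ∀ k, ∀ P ∈ D (c k), ∃ m, P (c m) := by
  classical
  have he : ∀ s, ∃ e : ℕ → S → Prop, ∀ P ∈ D s, ∃ j, e j = P := fun s => by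
    obtain ⟨e, he⟩ := (Set.countable_iff_exists_subset_range).1 (hc s)
    exact ⟨e, fun P hP => he hP⟩
  choose e he using he
  have hs : ∀ (P : S → Prop) (t : S), ∃ u, t ≤ u ∧ ((∃ u, t ≤ u ∧ P u) → P u) := fun P t => by
    by_cases h : ∃ u, t ≤ u ∧ P u
    · exact h.imp fun u hu => ⟨hu.1, fun _ => hu.2⟩
    · exact ⟨t, le_rfl, fun h' => absurd h' h⟩
  choose st h1 h2 using hs
  let q : ℕ → ℕ → S := fun t => Nat.rec (fun _ => s₀)
    (fun t f j => if j ≤ t then f j else st (e (f t.unpair.1) t.unpair.2) (f t)) t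
  have q1 : ∀ t j, q (t + 1) j =
      if j ≤ t then q t j else st (e (q t t.unpair.1) t.unpair.2) (q t t) := fun _ _ => rfl
  have q2 : ∀ t j, j ≤ t → q t j = q j j := fun t j h => by
    induction h with
    | refl => rfl
    | @step m h ih => rw [q1, if_pos (show j ≤ m from h), ih]
  have q3 : ∀ t, q (t + 1) (t + 1) = st (e (q t.unpair.1 t.unpair.1) t.unpair.2) (q t t) :=
    fun t => by rw [q1, if_neg (by omega), q2 t _ (Nat.unpair_left_le t)]
  have hm : Monotone fun t => q t t := monotone_nat_of_le_succ fun t => by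
    rw [q3]; exact h1 _ _
  refine ⟨fun t => q t t, hm, rfl, fun k P hP => ?_⟩
  obtain ⟨j, rfl⟩ := he _ P hP
  refine ⟨Nat.pair k j + 1, ?_⟩
  change e (q k k) j (q (Nat.pair k j + 1) (Nat.pair k j + 1))
  rw [q3, Nat.unpair_pair]
  exact h2 _ _ (hd _ _ hP _ (hm (Nat.left_le_pair k j)))

/-- A code for terms. -/
def Tm.code {n : ℕ} : Tm n → ℕ
  | .var i => Nat.pair 0 i
  | .zero => Nat.pair 1 0
  | .one => Nat.pair 2 0
  | .ident => Nat.pair 3 0
  | .neg s => Nat.pair 4 s.code
  | .conv s => Nat.pair 5 s.code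
  | .add s t => Nat.pair 6 (Nat.pair s.code t.code)
  | .comp s t => Nat.pair 7 (Nat.pair s.code t.code)

theorem Tm.code_inj {n : ℕ} (s t : Tm n) (h : s.code = t.code) : s = t := by
  induction s generalizing t <;> cases t <;>
    simp only [Tm.code, Nat.pair_eq_pair, true_and] at h <;> first
    | rfl
    | (exfalso; omega)
    | exact congrArg _ (Fin.ext h)
    | (rename_i ih _; rw [ih _ h])
    | (rename_i ih ih' _ _; rw [ih _ h.1, ih' _ h.2])

/-- A code for formulas. -/
def Fm.code {n : ℕ} : Fm n → ℕ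
  | .eq s t => Nat.pair 0 (Nat.pair s.code t.code)
  | .fls => Nat.pair 1 0
  | .imp s t => Nat.pair 2 (Nat.pair s.code t.code)
  | .all i s => Nat.pair 3 (Nat.pair i s.code)

theorem Fm.code_inj {n : ℕ} (s t : Fm n) (h : s.code = t.code) : s = t := by
  induction s generalizing t <;> cases t <;>
    simp only [Fm.code, Nat.pair_eq_pair, true_and] at h <;> first
    | rfl
    | (exfalso; omega)
    | rw [Tm.code_inj _ _ h.1, Tm.code_inj _ _ h.2]
    | (rename_i ih ih' _ _; rw [ih _ h.1, ih' _ h.2])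
    | (rename_i ih _ _; rw [Fin.ext h.1, ih _ h.2])

theorem Fm.countable (n : ℕ) : Countable (Fm n) :=
  Function.Injective.countable (f := Fm.code) Fm.code_inj

end Pool.Agent.Lib.MP_f51cdd_lc.Seu
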