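import Pool.Agent.Lib.MP_f51cdd_lc.Cr.UltraA

/-!
Matched atoms, points and elements closed under all demands.
-/

namespace Pool.Agent.Lib.MP_f51cdd_lc.Seu

open Function RelAlg

variable {A B : Type} [BooleanAlgebra A] [BooleanAlgebra B]

/-- A finite matching of atoms with countably many points and elements. -/
structure St (G : List (Atm A × Atm B) → Prop) (U : Type) where
  l : List (Atm A × Atm B)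
  V : Set U
  Y : Set B
  hl : G l
  hV : V.Countable
  hY : Y.Countable

instance {G : List (Atm A × Atm B) → Prop} {U : Type} : Preorder (St G U) where
  le s t := s.l ⊆ t.l ∧ s.V ⊆ t.V ∧ s.Y ⊆ t.Y
  le_refl _ := ⟨List.Subset.refl _, subset_rfl, subset_rfl⟩
  le_trans _ _ _ h k := ⟨List.Subset.trans h.1 k.1, h.2.1.trans k.2.1, h.2.2.trans k.2.2⟩

theorem St.addV {G : List (Atm A × Atm B) → Prop} {U : Type} (t : St G U) (Z : Set U)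
    (hZ : Z.Finite) (W : Set B) (hW : W.Finite) :
    ∃ u : St G U, t ≤ u ∧ Z ⊆ u.V ∧ W ⊆ u.Y :=
  ⟨⟨t.l, t.V ∪ Z, t.Y ∪ W, t.hl, t.hV.union hZ.countable, t.hY.union hW.countable⟩,
    ⟨List.Subset.refl _, Set.subset_union_left, Set.subset_union_left⟩,
    Set.subset_union_right, Set.subset_union_right⟩

variable [RelAlg A] [RelAlg B]

/-- The closure conditions. -/
structure Clo (G : List (Atm A × Atm B) → Prop) {U : Type} (E : SetRel U U)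
    (h : A → SetRel U U) (L : Set (Atm A × Atm B)) (V : Set U) (Y : Set B) : Prop where
  dir : ∀ u ∈ L, ∀ v ∈ L, ∀ w ∈ L, ∃ l, G l ∧ u ∈ l ∧ v ∈ l ∧ w ∈ l
  lab : ∀ x ∈ V, ∀ y ∈ V, (x, y) ∈ E → ∃ u ∈ L, (x, y) ∈ h u.1.1
  back : ∀ y ∈ Y, IsAtom y → ∃ u ∈ L, u.2.1 = y
  pts : ∀ u ∈ L, u.2.1 ∈ Y ∧ ∃ x ∈ V, ∃ y ∈ V, (x, y) ∈ h u.1.1
  wit : ∀ x ∈ V, ∀ y ∈ V, ∀ u ∈ L, ∀ v ∈ L, (x, y) ∈ h (comp u.1.1 v.1.1) →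
    ∃ z ∈ V, (x, z) ∈ h u.1.1 ∧ (z, y) ∈ h v.1.1
  sko : ∀ (m : ℕ) (φ : Fm m) (i : Fin m) (α : Fin m → B), (∀ j, α j ∈ Y) →
    (∀ b ∈ Y, φ.Sat (update α i b)) → ∀ b, φ.Sat (update α i b)
  bot : ⊥ ∈ Y
  ops : ∀ a ∈ Y, ∀ b ∈ Y, ident ∈ Y ∧ a ⊔ b ∈ Y ∧ a ⊓ b ∈ Y ∧ aᶜ ∈ Y ∧ comp a b ∈ Y ∧ conv a ∈ Y
  low : ∀ a ∈ Y, a ≠ ⊥ → ∃ y ∈ Y, IsAtom y ∧ y ≤ a
  fac : ∀ a ∈ Y, ∀ b ∈ Y, ∀ c ∈ Y, IsAtom c → c ≤ comp a b →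
    ∃ x ∈ Y, ∃ y ∈ Y, IsAtom x ∧ IsAtom y ∧ x ≤ a ∧ y ≤ b ∧ c ≤ comp x y

theorem exists_clo [IsAtomic B] {c : ℕ} {f : Fin c → A} {g : Fin c → B}
    {G : List (Atm A × Atm B) → Prop} (hG : AI f g G) {U : Type} {E : SetRel U U}
    {h : A → SetRel U U} (hi : Injective h) (h0 : h ⊥ = ∅)
    (hm : ∀ a b, h (comp a b) = (h a).comp (h b)) (ha : ∀ p ∈ E, ∃ a, IsAtom a ∧ p ∈ h a) :
    ∃ L V Y, Clo G E h L V Y := by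
  have := Fm.countable
  let D : St G U → Set (St G U → Prop) := fun s =>
    Set.range (fun p : s.V × s.V => fun t =>
      (p.1.1, p.2.1) ∈ E → ∃ u ∈ t.l, (p.1.1, p.2.1) ∈ h u.1.1) ∪
    (Set.range (fun y : s.Y => fun t => IsAtom y.1 → ∃ u ∈ t.l, u.2.1 = y.1) ∪
    (Set.range (fun u : {u | u ∈ s.l} => fun t =>
      u.1.2.1 ∈ t.Y ∧ ∃ x ∈ t.V, ∃ y ∈ t.V, (x, y) ∈ h u.1.1.1) ∪
    (Set.range (fun p : (s.V × s.V) × {u | u ∈ s.l} × {u | u ∈ s.l} => fun t =>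
      (p.1.1.1, p.1.2.1) ∈ h (comp p.2.1.1.1.1 p.2.2.1.1.1) →
        ∃ z ∈ t.V, (p.1.1.1, z) ∈ h p.2.1.1.1.1 ∧ (z, p.1.2.1) ∈ h p.2.2.1.1.1) ∪
    (Set.range (fun p : (m : ℕ) × Fm m × Fin m × (Fin m → s.Y) => fun t =>
      (∀ b ∈ t.Y, p.2.1.Sat (update (fun j => (p.2.2.2 j).1) p.2.2.1 b)) →
        ∀ b, p.2.1.Sat (update (fun j => (p.2.2.2 j).1) p.2.2.1 b)) ∪
    (Set.range (fun p : s.Y × s.Y => fun t => ident ∈ t.Y ∧ p.1.1 ⊔ p.2.1 ∈ t.Y ∧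
      p.1.1 ⊓ p.2.1 ∈ t.Y ∧ p.1.1ᶜ ∈ t.Y ∧ comp p.1.1 p.2.1 ∈ t.Y ∧ conv p.1.1 ∈ t.Y) ∪
    (Set.range (fun a : s.Y => fun t => a.1 ≠ ⊥ → ∃ y ∈ t.Y, IsAtom y ∧ y ≤ a.1) ∪
    Set.range (fun p : s.Y × s.Y × s.Y => fun t => IsAtom p.2.2.1 → p.2.2.1 ≤ comp p.1.1 p.2.1.1 →
      ∃ x ∈ t.Y, ∃ y ∈ t.Y, IsAtom x ∧ IsAtom y ∧ x ≤ p.1.1 ∧ y ≤ p.2.1.1 ∧
        p.2.2.1 ≤ comp x y)))))))
  obtain ⟨q, hq, q0, hD⟩ := exists_chain D (fun s => by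
      have := s.hV.to_subtype
      have := s.hY.to_subtype
      have : Finite {u | u ∈ s.l} := (List.finite_toSet s.l).to_subtype
      exact (Set.countable_range _).union ((Set.countable_range _).union
        ((Set.countable_range _).union ((Set.countable_range _).union
        ((Set.countable_range _).union ((Set.countable_range _).union
        ((Set.countable_range _).union (Set.countable_range _))))))))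
    (by
      rintro s _ (⟨⟨x, y⟩, rfl⟩ | ⟨y, rfl⟩ | ⟨u, rfl⟩ | ⟨⟨⟨x, y⟩, u, v⟩, rfl⟩ |
        ⟨⟨m, φ, i, α⟩, rfl⟩ | ⟨⟨a, b⟩, rfl⟩ | ⟨a, rfl⟩ | ⟨⟨a, b, d⟩, rfl⟩) t -
      · by_cases k : (x.1, y.1) ∈ E
        · obtain ⟨a, a1, a2⟩ := ha _ k
          obtain ⟨b, hb⟩ := hG.forth t.hl ⟨a, a1⟩
          exact ⟨⟨_, t.V, t.Y, hb, t.hV, t.hY⟩, ⟨List.subset_cons_self _ _, subset_rfl, subset_rfl⟩,
            fun _ => ⟨_, List.mem_cons_self, a2⟩⟩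
        · exact ⟨t, le_rfl, fun k' => absurd k' k⟩
      · by_cases k : IsAtom y.1
        · obtain ⟨a, hb⟩ := hG.back t.hl ⟨y.1, k⟩
          exact ⟨⟨_, t.V, t.Y, hb, t.hV, t.hY⟩, ⟨List.subset_cons_self _ _, subset_rfl, subset_rfl⟩,
            fun _ => ⟨_, List.mem_cons_self, rfl⟩⟩
        · exact ⟨t, le_rfl, fun k' => absurd k' k⟩
      · obtain ⟨⟨x, y⟩, hp⟩ : (h u.1.1.1).Nonempty :=
          Set.nonempty_iff_ne_empty.2 fun e => u.1.1.2.1 (hi (e.trans h0.symm))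
        obtain ⟨w, w1, w2, w3⟩ := t.addV {x, y} (Set.toFinite _) {u.1.2.1} (Set.toFinite _)
        exact ⟨w, w1, w3 rfl, x, w2 (.inl rfl), y, w2 (.inr rfl), hp⟩
      · by_cases k : (x.1, y.1) ∈ h (comp u.1.1.1 v.1.1.1)
        · rw [hm] at k
          obtain ⟨z, z1, z2⟩ := k
          obtain ⟨w, w1, w2, -⟩ := t.addV {z} (Set.toFinite _) ∅ Set.finite_empty
          exact ⟨w, w1, fun _ => ⟨z, w2 rfl, z1, z2⟩⟩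
        · exact ⟨t, le_rfl, fun k' => absurd k' k⟩
      · by_cases k : ∀ b, φ.Sat (update (fun j => (α j).1) i b)
        · exact ⟨t, le_rfl, fun _ => k⟩
        · push Not at k
          obtain ⟨b, hb⟩ := k
          obtain ⟨w, w1, -, w3⟩ := t.addV ∅ Set.finite_empty {b} (Set.toFinite _)
          exact ⟨w, w1, fun k => absurd (k b (w3 rfl)) hb⟩
      · obtain ⟨w, w1, -, w3⟩ := t.addV ∅ Set.finite_empty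
          {ident, a.1 ⊔ b.1, a.1 ⊓ b.1, a.1ᶜ, RelAlg.comp a.1 b.1, conv a.1} (Set.toFinite _)
        exact ⟨w, w1, w3 (by simp), w3 (by simp), w3 (by simp), w3 (by simp), w3 (by simp),
          w3 (by simp)⟩
      · rcases eq_bot_or_exists_atom_le a.1 with k | ⟨y, y1, y2⟩
        · exact ⟨t, le_rfl, fun k' => absurd k k'⟩
        · obtain ⟨w, w1, -, w3⟩ := t.addV ∅ Set.finite_empty {y} (Set.toFinite _)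
          exact ⟨w, w1, fun _ => ⟨y, w3 rfl, y1, y2⟩⟩
      · by_cases k : IsAtom d.1 ∧ d.1 ≤ RelAlg.comp a.1 b.1
        · obtain ⟨x, y, k1, k2, k3⟩ := (at_comp k.1).1 k.2
          obtain ⟨w, w1, -, w3⟩ := t.addV ∅ Set.finite_empty {x.1, y.1} (Set.toFinite _)
          exact ⟨w, w1, fun _ _ => ⟨_, w3 (.inl rfl), _, w3 (.inr rfl), x.2, y.2, k1, k2, k3⟩⟩
        · exact ⟨t, le_rfl, fun k1 k2 => absurd ⟨k1, k2⟩ k⟩)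
    ⟨[], ∅, {⊥}, hG.nil, Set.countable_empty, Set.countable_singleton _⟩
  have mL := fun {k l : ℕ} (e : k ≤ l) => (hq e).1
  have mV := fun {k l : ℕ} (e : k ≤ l) => (hq e).2.1
  have mY := fun {k l : ℕ} (e : k ≤ l) => (hq e).2.2
  refine ⟨{u | ∃ k, u ∈ (q k).l}, {x | ∃ k, x ∈ (q k).V}, {y | ∃ k, y ∈ (q k).Y}, ?_, ?_, ?_, ?_,
    ?_, ?_, ⟨0, by rw [q0]; rfl⟩, ?_, ?_, ?_⟩
  · rintro u ⟨i, hi⟩ v ⟨j, hj⟩ w ⟨k, hk⟩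
    exact ⟨_, (q (i + j + k)).hl, mL (by omega) hi, mL (by omega) hj, mL (by omega) hk⟩
  · rintro x ⟨i, hi⟩ y ⟨j, hj⟩ e
    obtain ⟨m, k⟩ := hD (i + j) _
      (.inl ⟨(⟨x, mV (by omega) hi⟩, ⟨y, mV (by omega) hj⟩), rfl⟩)
    obtain ⟨u, u1, u2⟩ := k e
    exact ⟨u, ⟨m, u1⟩, u2⟩
  · rintro y ⟨i, hi⟩ e
    obtain ⟨m, k⟩ := hD i _ (.inr (.inl ⟨⟨y, hi⟩, rfl⟩))
    obtain ⟨u, u1, u2⟩ := k e
    exact ⟨u, ⟨m, u1⟩, u2⟩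
  · rintro u ⟨i, hi⟩
    obtain ⟨m, k, x, x1, y, y1, e⟩ := hD i _ (.inr (.inr (.inl ⟨⟨u, hi⟩, rfl⟩)))
    exact ⟨⟨m, k⟩, x, ⟨m, x1⟩, y, ⟨m, y1⟩, e⟩
  · rintro x ⟨i, hi⟩ y ⟨j, hj⟩ u ⟨i', hi'⟩ v ⟨j', hj'⟩ e
    obtain ⟨m, k⟩ := hD (i + j + i' + j') _ (.inr (.inr (.inr (.inl
      ⟨((⟨x, mV (by omega) hi⟩, ⟨y, mV (by omega) hj⟩), ⟨u, mL (by omega) hi'⟩,
        ⟨v, mL (by omega) hj'⟩), rfl⟩))))
    obtain ⟨z, z1, z2⟩ := k e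
    exact ⟨z, ⟨m, z1⟩, z2⟩
  · intro m φ i α hα e
    choose k hk using hα
    obtain ⟨K, hK⟩ := Finite.exists_le k
    obtain ⟨r, hr⟩ := hD K _ (.inr (.inr (.inr (.inr (.inl
      ⟨⟨m, φ, i, fun j => ⟨α j, mY (hK j) (hk j)⟩⟩, rfl⟩)))))
    exact hr fun b hb => e b ⟨r, hb⟩
  · rintro a ⟨i, hi⟩ b ⟨j, hj⟩
    obtain ⟨m, k1, k2, k3, k4, k5, k6⟩ := hD (i + j) _ (.inr (.inr (.inr (.inr (.inr (.inl
      ⟨(⟨a, mY (by omega) hi⟩, ⟨b, mY (by omega) hj⟩), rfl⟩))))))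
    exact ⟨⟨m, k1⟩, ⟨m, k2⟩, ⟨m, k3⟩, ⟨m, k4⟩, ⟨m, k5⟩, ⟨m, k6⟩⟩
  · rintro a ⟨i, hi⟩ e
    obtain ⟨m, k⟩ := hD i _ (.inr (.inr (.inr (.inr (.inr (.inr (.inl ⟨⟨a, hi⟩, rfl⟩)))))))
    obtain ⟨y, y1, y2⟩ := k e
    exact ⟨y, ⟨m, y1⟩, y2⟩
  · rintro a ⟨i, hi⟩ b ⟨j, hj⟩ d ⟨k, hk⟩ e e'
    obtain ⟨m, r⟩ := hD (i + j + k) _ (.inr (.inr (.inr (.inr (.inr (.inr (.inr
      ⟨(⟨a, mY (by omega) hi⟩, ⟨b, mY (by omega) hj⟩, ⟨d, mY (by omega) hk⟩), rfl⟩)))))))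
    obtain ⟨x, x1, y, y1, r⟩ := r e e'
    exact ⟨x, ⟨m, x1⟩, y, ⟨m, y1⟩, r⟩

end Pool.Agent.Lib.MP_f51cdd_lc.Seu
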