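import Pool.Agent.Lib.MP_f51cdd_lc.Cr.Clo

/-!
The closed set of elements is an elementary subalgebra with an atomic representation.
-/

namespace Pool.Agent.Lib.MP_f51cdd_lc.Seu

open Function RelAlg Filter

variable {A B : Type} [BooleanAlgebra A] [BooleanAlgebra B] [RelAlg A] [RelAlg B]

theorem exists_sub [IsAtomic B] {c : ℕ} {f : Fin c → A} {g : Fin c → B}
    {G : List (Atm A × Atm B) → Prop} (hG : AI f g G) (hA : IsAR A) :
    ∃ (C : Type) (_ : BooleanAlgebra C) (_ : RelAlg C), IsAR C ∧ ElEq B C := by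
  obtain ⟨U, E, h, hE, hi, h0, h1, hs, hc, hm, hv, he, ha⟩ := hA
  obtain ⟨L, V, Y, H⟩ := exists_clo hG hi h0 hm ha
  let S : BooleanSubalgebra B :=
    { carrier := Y
      supClosed' := fun a ha b hb => (H.ops a ha b hb).2.1
      infClosed' := fun a ha b hb => (H.ops a ha b hb).2.2.1
      compl_mem' := fun {a} ha => (H.ops a ha a ha).2.2.2.1
      bot_mem' := H.bot }
  let R : RelAlg S :=
    { comp := fun a b => ⟨RelAlg.comp a.1 b.1, (H.ops _ a.2 _ b.2).2.2.2.2.1⟩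
      conv := fun a => ⟨conv a.1, (H.ops _ a.2 _ a.2).2.2.2.2.2⟩
      ident := ⟨ident, (H.ops _ H.bot _ H.bot).1⟩
      comp_assoc := fun a b c => Subtype.ext (comp_assoc a.1 b.1 c.1)
      sup_comp := fun a b c => Subtype.ext (sup_comp a.1 b.1 c.1)
      comp_ident := fun a => Subtype.ext (comp_ident a.1)
      conv_conv := fun a => Subtype.ext (conv_conv a.1)
      conv_sup := fun a b => Subtype.ext (conv_sup a.1 b.1)
      conv_comp := fun a b => Subtype.ext (conv_comp a.1 b.1)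
      tarski := fun a b => Subtype.ext (tarski a.1 b.1) }
  have hsub : ∀ a, h a ⊆ E := fun a => h1 ▸ rep_mono hs le_top
  have uniq : ∀ u ∈ L, ∀ v ∈ L, ∀ p, p ∈ h u.1.1 → p ∈ h v.1.1 → u.2 = v.2 :=
    fun u hu v hv p k1 k2 => by
      obtain ⟨l, l1, l2, l3, -⟩ := H.dir u hu v hv v hv
      exact (hG.eq l1 l2 l3).1 ((at_le_at _ _).1 (rep_atom hs hc u.1.2 k1 k2))
  let r : S → SetRel V V := fun a => {p | ∃ u ∈ L, (p.1.1, p.2.1) ∈ h u.1.1 ∧ u.2.1 ≤ a.1}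
  have key : ∀ (a : S) (x y : V), ∀ u ∈ L, (x.1, y.1) ∈ h u.1.1 → ((x, y) ∈ r a ↔ u.2.1 ≤ a.1) :=
    fun a x y u hu k => ⟨fun ⟨v, hv, k1, k2⟩ => uniq v hv u hu _ k1 k ▸ k2, fun k' => ⟨u, hu, k, k'⟩⟩
  have cv : ∀ (x y : V), ∀ u ∈ L, (x.1, y.1) ∈ h u.1.1 →
      ∃ v ∈ L, (y.1, x.1) ∈ h v.1.1 ∧ u.2.1 = conv v.2.1 := fun x y u hu k => by
    obtain ⟨v, hv', k'⟩ := H.lab _ y.2 _ x.2 (hE.symm (hsub _ k))
    obtain ⟨l, l1, l2, l3, -⟩ := H.dir v hv' u hu u hu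
    refine ⟨v, hv', k', ((((convIso B).isAtom_iff _).2 v.2.2).le_iff_eq u.2.2.1).1
      ((hG.conv l1 l2 l3).1 (rep_atom hs hc u.1.2 k ?_))⟩
    rw [hv]
    exact k'
  have sep : ∀ a b : S, r a ⊆ r b → a ≤ b := fun a b k => by
    by_contra hne
    obtain ⟨y, y1, y2, y3⟩ := H.low _ (a ⊓ bᶜ).2 fun e =>
      hne (by simpa using (disjoint_iff.2 (Subtype.ext e : a ⊓ bᶜ = ⊥)).le_compl_right)
    obtain ⟨u, hu, rfl⟩ := H.back y y1 y2
    obtain ⟨-, x, hx, z, hz, e⟩ := H.pts u hu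
    exact (at_le_compl y2).1 (y3.trans inf_le_right) ((key b ⟨x, hx⟩ ⟨z, hz⟩ u hu e).1
      (k ((key a ⟨x, hx⟩ ⟨z, hz⟩ u hu e).2 (y3.trans inf_le_left))))
  refine ⟨S, inferInstance, R, ⟨V, {p | (p.1.1, p.2.1) ∈ E}, r,
    ⟨fun x => hE.refl x.1, fun k => hE.symm k, fun k k' => hE.trans k k'⟩,
    fun a b e => (sep a b e.le).antisymm (sep b a e.ge), ?_, ?_, fun a b => ?_, fun a => ?_,
    fun a b => ?_, fun a => ?_, ?_, ?_⟩, ?_⟩
  · exact Set.eq_empty_of_forall_notMem fun p ⟨u, _, _, k⟩ => u.2.2.1 (le_bot_iff.1 k)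
  · ext ⟨x, y⟩
    refine ⟨fun ⟨u, _, k, _⟩ => hsub _ k, fun k => ?_⟩
    obtain ⟨u, hu, k⟩ := H.lab _ x.2 _ y.2 k
    exact ⟨u, hu, k, le_top⟩
  · ext ⟨x, y⟩
    constructor
    · rintro ⟨u, hu, k, k'⟩
      exact ((at_le_sup u.2.2).1 k').imp (fun k' => ⟨u, hu, k, k'⟩) fun k' => ⟨u, hu, k, k'⟩
    · rintro (⟨u, hu, k, k'⟩ | ⟨u, hu, k, k'⟩)
      exacts [⟨u, hu, k, le_sup_of_le_left k'⟩, ⟨u, hu, k, le_sup_of_le_right k'⟩]
  · ext ⟨x, y⟩
    constructor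
    · rintro ⟨u, hu, k, k'⟩
      exact ⟨hsub _ k, fun e => (at_le_compl u.2.2).1 k' ((key a x y u hu k).1 e)⟩
    · rintro ⟨k, k'⟩
      obtain ⟨u, hu, k⟩ := H.lab _ x.2 _ y.2 k
      exact ⟨u, hu, k, (at_le_compl u.2.2).2 fun e => k' ⟨u, hu, k, e⟩⟩
  · ext ⟨x, y⟩
    constructor
    · rintro ⟨u, hu, k, k'⟩
      obtain ⟨p, p1, q, q1, p2, q2, p3, q3, e⟩ := H.fac _ a.2 _ b.2 _ (H.pts u hu).1 u.2.2 k'
      obtain ⟨v, hv', rfl⟩ := H.back p p1 p2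
      obtain ⟨w, hw, rfl⟩ := H.back q q1 q2
      obtain ⟨l, l1, l2, l3, l4⟩ := H.dir v hv' w hw u hu
      obtain ⟨z, z1, z2, z3⟩ := H.wit _ x.2 _ y.2 v hv' w hw
        (rep_mono hs ((hG.comp l1 l2 l3 l4).2 e) k)
      exact ⟨⟨z, z1⟩, ⟨v, hv', z2, p3⟩, w, hw, z3, q3⟩
    · rintro ⟨z, ⟨v, hv', k1, k2⟩, w, hw, k3, k4⟩
      have e : (x.1, y.1) ∈ h (RelAlg.comp v.1.1 w.1.1) := by rw [hm]; exact ⟨z.1, k1, k3⟩
      obtain ⟨u, hu, k⟩ := H.lab _ x.2 _ y.2 (hsub _ e)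
      obtain ⟨l, l1, l2, l3, l4⟩ := H.dir v hv' w hw u hu
      exact ⟨u, hu, k, ((hG.comp l1 l2 l3 l4).1 (rep_atom hs hc u.1.2 k e)).trans
        (comp_mono k2 k4)⟩
  · ext ⟨x, y⟩
    constructor
    · rintro ⟨u, hu, k, k'⟩
      obtain ⟨v, hv', e, e'⟩ := cv x y u hu k
      exact ⟨v, hv', e, (convIso B).le_iff_le.1 (e'.ge.trans k')⟩
    · rintro ⟨u, hu, k, k'⟩
      obtain ⟨v, hv', e, e'⟩ := cv y x u hu k
      refine ⟨v, hv', e, ?_⟩
      have : conv u.2.1 ≤ conv a.1 := (convIso B).monotone k'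
      rwa [e', conv_conv] at this
  · ext ⟨x, y⟩
    constructor
    · rintro ⟨u, hu, k, k'⟩
      obtain ⟨l, l1, l2, -⟩ := H.dir u hu u hu u hu
      have := rep_mono hs ((hG.ident l1 l2).2 k') k
      rw [he] at this
      exact Subtype.ext this
    · intro e
      obtain rfl : x = y := e
      obtain ⟨u, hu, k⟩ := H.lab _ x.2 _ x.2 (hE.refl _)
      obtain ⟨l, l1, l2, -⟩ := H.dir u hu u hu u hu
      exact ⟨u, hu, k, (hG.ident l1 l2).1 (rep_atom hs hc u.1.2 k (by rw [he]; rfl))⟩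
  · rintro ⟨x, y⟩ k
    obtain ⟨u, hu, k⟩ := H.lab _ x.2 _ y.2 k
    exact ⟨⟨u.2.1, (H.pts u hu).1⟩, ⟨fun e => u.2.2.1 (congrArg Subtype.val e),
      fun b hb => Subtype.ext (u.2.2.2 b.1 hb)⟩, u, hu, k, le_rfl⟩
  · intro m φ hφ
    have ev : ∀ (α : Fin m → S) (t : Tm m), (t.eval α).1 = t.eval fun j => (α j).1 := fun α t => by
      induction t with
      | var j => rfl
      | zero => rfl
      | one => rfl
      | ident => rfl
      | neg s h => rw [Tm.eval, Tm.eval, ← h]; rfl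
      | conv s h => rw [Tm.eval, Tm.eval, ← h]; rfl
      | add s t h h' => rw [Tm.eval, Tm.eval, ← h, ← h']; rfl
      | comp s t h h' => rw [Tm.eval, Tm.eval, ← h, ← h']; rfl
    have tv : ∀ (ψ : Fm m) (α : Fin m → S), ψ.Sat α ↔ ψ.Sat fun j => (α j).1 := fun ψ => by
      induction ψ with
      | eq s t => intro α; rw [Fm.Sat, Fm.Sat, ← ev, ← ev]; exact Subtype.ext_iff
      | fls => exact fun _ => Iff.rfl
      | imp φ ψ h h' => intro α; rw [Fm.Sat, Fm.Sat, h, h']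
      | all i φ h =>
        intro α
        have up : ∀ b : S, (fun j => (update α i b j).1) = update (fun j => (α j).1) i b.1 :=
          fun b => comp_update Subtype.val α i b
        refine ⟨fun k => H.sko m φ i _ (fun j => (α j).2) fun b hb => ?_, fun k b => ?_⟩
        · have := (h _).1 (k ⟨b, hb⟩)
          rwa [up] at this
        · rw [h, up]
          exact k _
    refine ⟨fun k α => (tv φ α).2 (k _), fun k α => ?_⟩
    exact (φ.sat_congr (by simp [hφ])).1 ((tv φ fun _ => ⊥).1 (k _))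

theorem elCRA : ∃ n, ∀ (B : Type) [BooleanAlgebra B] [RelAlg B],
    (∀ φ : Fm n, φ.free = ∅ →
      (∀ (A : Type) [BooleanAlgebra A] [RelAlg A], IsCRA A → Models A φ) → Models B φ) →
    ∃ (C : Type) (_ : BooleanAlgebra C) (_ : RelAlg C), IsCRA C ∧ ElEq B C := by
  obtain ⟨n, hn, h⟩ := exists_ai 0
  refine ⟨n, fun B _ _ hB => ?_⟩
  choose A _ _ α hA hs using exists_nearC hB
  have hP := peb_ultra (B := fun _ => B) (Ultrafilter.of_le atTop) α _ hs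
  have hU := UP.isAR (𝒰 := Ultrafilter.of atTop) fun k => isCRA_iff.1 (hA k)
  have := hU.isAtomic
  have := hP.symm.isAtomic hn
  obtain ⟨f, G, hG⟩ := h _ _ hP Fin.elim0
  obtain ⟨C, _, _, h1, h2⟩ := exists_sub hG hU
  exact ⟨C, _, _, isCRA_iff.2 h1, fun m φ hφ => (UP.models φ).symm.trans (h2 m φ hφ)⟩

end Pool.Agent.Lib.MP_f51cdd_lc.Seu
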