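import Pool.Agent.Lib.MP_f51cdd_lc.Cr.Chain
import Pool.Agent.Lib.MP_f51cdd_lc.At.Los

/-!
Complete representations are the atomic ones; ultraproducts of atomic representations.
-/

namespace Pool.Agent.Lib.MP_f51cdd_lc.Seu

open Function RelAlg Filter

/-- `A` has a representation in which every pair of the unit lies in an atom. -/
def IsAR (A : Type) [BooleanAlgebra A] [RelAlg A] : Prop :=
  ∃ (U : Type) (E : SetRel U U) (h : A → SetRel U U), Equivalence (fun u v => (u, v) ∈ E) ∧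
    Function.Injective h ∧ h ⊥ = ∅ ∧ h ⊤ = E ∧ (∀ a b, h (a ⊔ b) = h a ∪ h b) ∧
    (∀ a, h aᶜ = E \ h a) ∧ (∀ a b, h (comp a b) = (h a).comp (h b)) ∧
    (∀ a, h (conv a) = (h a).inv) ∧ h ident = SetRel.id ∧
    ∀ p ∈ E, ∃ a, IsAtom a ∧ p ∈ h a

section

variable {A U : Type} [BooleanAlgebra A] {E : SetRel U U} {h : A → SetRel U U}

theorem rep_mono (hs : ∀ a b, h (a ⊔ b) = h a ∪ h b) {a b : A} (k : a ≤ b) : h a ⊆ h b := by
  rw [← sup_eq_right.2 k, hs]; exact Set.subset_union_left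

theorem rep_atom (hs : ∀ a b, h (a ⊔ b) = h a ∪ h b) (hc : ∀ a, h aᶜ = E \ h a) {a b : A}
    (ha : IsAtom a) {p : U × U} (h1 : p ∈ h a) (h2 : p ∈ h b) : a ≤ b := by
  by_contra k
  have := rep_mono hs ((at_le_compl ha).2 k) h1
  rw [hc] at this
  exact this.2 h2

end

theorem isCRA_iff {A : Type} [BooleanAlgebra A] [RelAlg A] : IsCRA A ↔ IsAR A := by
  constructor
  · rintro ⟨U, E, h, hE, hi, h0, h1, hs, hc, hm, hv, he, hl⟩
    refine ⟨U, E, h, hE, hi, h0, h1, hs, hc, hm, hv, he, fun p hp => ?_⟩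
    by_contra k
    push Not at k
    have : IsLUB {x | p ∉ h x} (⊤ : A) := by
      refine ⟨fun _ _ => le_top, fun u hu => ?_⟩
      have k1 : ∀ x ≤ uᶜ, x ≠ ⊥ → p ∈ h x := fun x hx hne => by
        by_contra k2
        exact hne (le_bot_iff.1 ((le_inf (hu k2) hx).trans inf_compl_eq_bot.le))
      rw [top_le_iff, ← compl_eq_bot]
      by_contra hne
      have k2 : ¬IsAtom uᶜ := fun k2 => k _ k2 (k1 _ le_rfl hne)
      rw [IsAtom, not_and] at k2
      have k3 := k2 hne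
      push Not at k3
      obtain ⟨y, y1, y2⟩ := k3
      have k4 := rep_mono hs inf_le_right (k1 (uᶜ ⊓ yᶜ) inf_le_left fun e =>
        y1.not_ge (by simpa using (disjoint_iff.2 e).le_compl_right))
      rw [hc] at k4
      exact k4.2 (k1 y y1.le y2)
    have k5 := hl _ _ this
    rw [h1] at k5
    rw [k5] at hp
    simp only [Set.mem_iUnion] at hp
    obtain ⟨x, x1, x2⟩ := hp
    exact x1 x2
  · rintro ⟨U, E, h, hE, hi, h0, h1, hs, hc, hm, hv, he, ha⟩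
    refine ⟨U, E, h, hE, hi, h0, h1, hs, hc, hm, hv, he, fun S s hS => ?_⟩
    refine Set.Subset.antisymm (fun p hp => ?_)
      (Set.iUnion₂_subset fun a k => rep_mono hs (hS.1 k))
    obtain ⟨a, a1, a2⟩ := ha p (h1 ▸ rep_mono hs le_top hp)
    by_contra k
    simp only [Set.mem_iUnion, not_exists] at k
    have k1 : s ≤ aᶜ := hS.2 fun x hx =>
      le_compl_comm.1 ((at_le_compl a1).2 fun e => k x hx (rep_mono hs e a2))
    exact (at_le_compl a1).1 ((rep_atom hs hc a1 a2 hp).trans k1) le_rfl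

theorem IsAR.isAtomic {A : Type} [BooleanAlgebra A] [RelAlg A] (hA : IsAR A) : IsAtomic A := by
  obtain ⟨U, E, h, -, hi, h0, h1, hs, hc, -, -, -, ha⟩ := hA
  refine ⟨fun b => or_iff_not_imp_left.2 fun k => ?_⟩
  obtain ⟨p, hp⟩ : (h b).Nonempty := Set.nonempty_iff_ne_empty.2 fun e => k (hi (e.trans h0.symm))
  obtain ⟨a, a1, a2⟩ := ha p (h1 ▸ rep_mono hs le_top hp)
  exact ⟨a, a1, rep_atom hs hc a1 a2 hp⟩

theorem isAR_ultra {C ι : Type} [BooleanAlgebra C] [RelAlg C] (𝒰 : Ultrafilter ι) (A : ι → Type)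
    [∀ i, BooleanAlgebra (A i)] [∀ i, RelAlg (A i)] (hA : ∀ i, IsAR (A i)) (f : ∀ i, C → A i)
    (hinj : ∀ a b, a ≠ b → ∀ᶠ i in 𝒰, f i a ≠ f i b)
    (hsup : ∀ a b, ∀ᶠ i in 𝒰, f i (a ⊔ b) = f i a ⊔ f i b)
    (hneg : ∀ a, ∀ᶠ i in 𝒰, f i aᶜ = (f i a)ᶜ)
    (hcomp : ∀ a b, ∀ᶠ i in 𝒰, f i (comp a b) = comp (f i a) (f i b))
    (hconv : ∀ a, ∀ᶠ i in 𝒰, f i (conv a) = conv (f i a))
    (hid : ∀ᶠ i in 𝒰, f i ident = ident)
    (hat : ∀ a : ∀ i, A i, (∀ᶠ i in 𝒰, IsAtom (a i)) → ∃ c, IsAtom c ∧ ∀ᶠ i in 𝒰, f i c = a i) :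
    IsAR C := by
  classical
  choose U E g hE gi g0 g1 gs gc gm gv ge ga using hA
  have htop : ∀ᶠ i in 𝒰, f i ⊤ = ⊤ := by
    filter_upwards [hsup ⊥ ⊥ᶜ, hneg ⊥] with i h1 h2
    rwa [h2, sup_compl_eq_top, sup_compl_eq_top] at h1
  have hbot : ∀ᶠ i in 𝒰, f i ⊥ = ⊥ := by
    filter_upwards [htop, hneg ⊤] with i h1 h2
    rwa [h1, compl_top, compl_top] at h2
  let r : Setoid (∀ i, Option (U i)) := (𝒰 : Filter ι).productSetoid _
  let P := {x : Quotient r // ∀ᶠ i in 𝒰, ∃ u, x.out i = some u}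
  let R : C → ∀ i, Option (U i) → Option (U i) → Prop := fun c i x y =>
    ∃ u v, x = some u ∧ y = some v ∧ (u, v) ∈ g i (f i c)
  let h : C → SetRel P P := fun c => {p | ∀ᶠ i in 𝒰, R c i (p.1.1.out i) (p.2.1.out i)}
  have mk : ∀ p : ∀ i, U i → Prop, (∀ᶠ i in 𝒰, ∃ u, p i u) →
      ∃ x : P, ∀ᶠ i in 𝒰, ∃ u, x.1.out i = some u ∧ p i u := fun p hp => by
    let y : ∀ i, Option (U i) := fun i => if h : ∃ u, p i u then some h.choose else none
    have : ∀ᶠ i in 𝒰, ∃ u, (Quotient.mk r y).out i = some u ∧ p i u := by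
      filter_upwards [hp, (Quotient.mk_out y : ∀ᶠ i in 𝒰, (Quotient.mk r y).out i = y i)]
        with i h1 h2
      exact ⟨_, h2.trans (dif_pos h1), h1.choose_spec⟩
    exact ⟨⟨_, this.mono fun _ h => h.imp fun _ h => h.1⟩, this⟩
  have key : ∀ (x y : P) (c : C) {q : ∀ i, U i × U i → Prop},
      (∀ᶠ i in 𝒰, ∀ w, w ∈ g i (f i c) ↔ q i w) → ((x, y) ∈ h c ↔
        ∀ᶠ i in 𝒰, ∀ u v, x.1.out i = some u → y.1.out i = some v → q i (u, v)) := by
    intro x y c q hq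
    refine eventually_congr ?_
    filter_upwards [hq, x.2, y.2] with i h1 ⟨u, hu⟩ ⟨v, hv⟩
    simp [hu, hv, h1]
  have key' : ∀ (x y : P) (c : C), (x, y) ∈ h c ↔
      ∀ᶠ i in 𝒰, ∀ u v, x.1.out i = some u → y.1.out i = some v → (u, v) ∈ g i (f i c) :=
    fun x y c => key x y c (.of_forall fun _ _ => Iff.rfl)
  have hT : ∀ x y : P, (x, y) ∈ h ⊤ ↔
      ∀ᶠ i in 𝒰, ∀ u v, x.1.out i = some u → y.1.out i = some v → (u, v) ∈ E i :=
    fun x y => key x y ⊤ (htop.mono fun i h w => by rw [h, g1])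
  have sep : ∀ a b, (∀ᶠ i in 𝒰, ¬g i (f i a) ⊆ g i (f i b)) → ¬h a ⊆ h b := fun a b hab hs => by
    obtain ⟨x, hx⟩ := mk (fun i u => ∃ v, (u, v) ∈ g i (f i a) ∧ (u, v) ∉ g i (f i b))
      (hab.mono fun i h => by
        obtain ⟨⟨u, v⟩, h⟩ := Set.not_subset.1 h
        exact ⟨u, v, h⟩)
    obtain ⟨y, hy⟩ := mk (fun i v => ∃ u, x.1.out i = some u ∧ (u, v) ∈ g i (f i a) ∧
      (u, v) ∉ g i (f i b)) (hx.mono fun i ⟨u, h, v, h'⟩ => ⟨v, u, h, h'⟩)
    have := (key' x y b).1 (hs (hy.mono fun i ⟨v, h, u, h'⟩ => ⟨u, v, h'.1, h, h'.2.1⟩))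
    obtain ⟨i, ⟨v, h, u, h'⟩, h2⟩ := (hy.and this).exists
    exact h'.2.2 (h2 u v h'.1 h)
  refine ⟨P, h ⊤, h, ⟨fun x => ?_, fun {x y} hxy => ?_, fun {x y z} h1 h2 => ?_⟩, fun a b e => ?_,
    ?_, rfl, fun a b => ?_, fun a => ?_, fun a b => ?_, fun a => ?_, ?_, ?_⟩
  · exact (hT x x).2 (.of_forall fun i u v h1 h2 => by
      rw [Option.some.inj (h1.symm.trans h2)]; exact (hE i).refl v)
  · exact (hT y x).2 (((hT x y).1 hxy).mono fun i h u v h1 h2 => (hE i).symm (h v u h2 h1))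
  · refine (hT x z).2 ?_
    filter_upwards [(hT x y).1 h1, (hT y z).1 h2, y.2] with i k1 k2 ⟨w, hw⟩ u v e1 e2
    exact (hE i).trans (k1 u w e1 hw) (k2 w v hw e2)
  · by_contra hne
    rcases Ultrafilter.eventually_or.1 ((hinj a b hne).mono fun i h =>
      not_and_or.1 fun k => h (gi i (Set.Subset.antisymm k.1 k.2))) with h | h
    exacts [sep a b h e.le, sep b a h e.ge]
  · refine Set.eq_empty_of_forall_notMem fun p hp => ?_
    obtain ⟨i, ⟨u, v, -, -, k⟩, h2⟩ := (Eventually.and hp hbot).exists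
    rw [h2, g0] at k
    exact k
  · ext ⟨x, y⟩
    refine Iff.trans (eventually_congr ((hsup a b).mono fun i e => ?_)) Ultrafilter.eventually_or
    simp only [e, gs, Set.mem_union, and_or_left, exists_or]
  · ext ⟨x, y⟩
    refine Iff.trans ?_ (eventually_and.trans (and_congr_right fun _ => Ultrafilter.eventually_not))
    refine eventually_congr ?_
    filter_upwards [hneg a, htop, x.2, y.2] with i e1 e2 ⟨u, hu⟩ ⟨v, hv⟩
    simp [e1, e2, gc, g1, hu, hv]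
  · ext ⟨x, z⟩
    constructor
    · intro hp
      obtain ⟨y, hy⟩ := mk (fun i w => R a i (x.1.out i) (some w) ∧ R b i (some w) (z.1.out i)) (by
        filter_upwards [hp, hcomp a b] with i ⟨u, v, h1, h2, k⟩ e
        rw [e, gm] at k
        obtain ⟨w, k1, k2⟩ := k
        exact ⟨w, ⟨u, w, h1, rfl, k1⟩, w, v, rfl, h2, k2⟩)
      exact ⟨y, hy.mono fun i ⟨_, e, k⟩ => e ▸ k.1, hy.mono fun i ⟨_, e, k⟩ => e ▸ k.2⟩
    · rintro ⟨y, h1, h2⟩
      filter_upwards [h1, h2, hcomp a b] with i ⟨u, v, e1, e2, k1⟩ ⟨v', w, e3, e4, k2⟩ e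
      obtain rfl := Option.some.inj (e2.symm.trans e3)
      exact ⟨u, w, e1, e4, by rw [e, gm]; exact ⟨v, k1, k2⟩⟩
  · ext ⟨x, y⟩
    refine eventually_congr ((hconv a).mono fun i e => ?_)
    simp only [e, gv]
    exact ⟨fun ⟨u, v, a, b, c⟩ => ⟨v, u, b, a, c⟩, fun ⟨u, v, a, b, c⟩ => ⟨v, u, b, a, c⟩⟩
  · ext ⟨x, y⟩
    rw [key x y ident (q := fun i w => w.1 = w.2) (hid.mono fun i e w => by rw [e, ge]; rfl)]
    refine ⟨fun k => Subtype.ext (Quotient.out_equiv_out.1 ?_), fun k => ?_⟩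
    · filter_upwards [k, x.2, y.2] with i k ⟨u, hu⟩ ⟨v, hv⟩
      rw [hu, hv, k u v hu hv]
    · obtain rfl : x = y := k
      exact .of_forall fun i u v h1 h2 => Option.some.inj (h1.symm.trans h2)
  · rintro ⟨x, y⟩ hxy
    have : ∀ i, ∃ a : A i, ∀ u v, x.1.out i = some u → y.1.out i = some v → (u, v) ∈ E i →
        IsAtom a ∧ (u, v) ∈ g i a := fun i => by
      by_cases k : ∃ u v, x.1.out i = some u ∧ y.1.out i = some v ∧ (u, v) ∈ E i
      · obtain ⟨u, v, k1, k2, k3⟩ := k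
        obtain ⟨a, ha⟩ := ga i _ k3
        refine ⟨a, fun u' v' e1 e2 _ => ?_⟩
        obtain rfl := Option.some.inj (k1.symm.trans e1)
        obtain rfl := Option.some.inj (k2.symm.trans e2)
        exact ha
      · exact ⟨⊥, fun u v k1 k2 k3 => absurd ⟨u, v, k1, k2, k3⟩ k⟩
    choose a ha using this
    obtain ⟨c, hc, e⟩ := hat a (by
      filter_upwards [(hT x y).1 hxy, x.2, y.2] with i k ⟨u, hu⟩ ⟨v, hv⟩
      exact (ha i u v hu hv (k u v hu hv)).1)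
    refine ⟨c, hc, (key' x y c).2 ?_⟩
    filter_upwards [(hT x y).1 hxy, e] with i k e u v hu hv
    rw [e]
    exact (ha i u v hu hv (k u v hu hv)).2

variable {ι : Type} {𝒰 : Ultrafilter ι} {A : ι → Type} [∀ i, BooleanAlgebra (A i)]
  [∀ i, RelAlg (A i)]

theorem UP.isAR (hA : ∀ i, IsAR (A i)) : IsAR (UP 𝒰 A) := by
  obtain ⟨s, hs⟩ := (UP.surj (𝒰 := 𝒰) (A := A)).hasRightInverse
  refine isAR_ultra 𝒰 A hA (fun i a => s a i)
    (fun a b h => Ultrafilter.eventually_not.2 (mt UP.mk_eq.2 (by rwa [hs, hs])))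
    (fun a b => UP.mk_eq.1 ((hs _).trans ?_)) (fun a => UP.mk_eq.1 ((hs _).trans ?_))
    (fun a b => UP.mk_eq.1 ((hs _).trans ?_)) (fun a => UP.mk_eq.1 ((hs _).trans ?_))
    (UP.mk_eq.1 (hs _)) fun a ha => ⟨UP.mk a, UP.isAtom ha, UP.mk_eq.1 (hs _)⟩
  · exact (congrArg₂ (· ⊔ ·) (hs a) (hs b)).symm
  · exact (congrArg compl (hs a)).symm
  · exact (congrArg₂ RelAlg.comp (hs a) (hs b)).symm
  · exact (congrArg conv (hs a)).symm

theorem UP.sat {n : ℕ} (φ : Fm n) (a : ∀ i, Fin n → A i) :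
    φ.Sat (fun j => (UP.mk fun i => a i j : UP 𝒰 A)) ↔ ∀ᶠ i in 𝒰, φ.Sat (a i) := by
  induction φ generalizing a with
  | eq s t => rw [Fm.Sat, UP.eval, UP.eval]; exact UP.mk_eq
  | fls => exact ⟨False.elim, fun h => h.exists.choose_spec⟩
  | imp φ ψ h h' => rw [Fm.Sat, h, h']; exact Ultrafilter.eventually_imp.symm
  | all j φ h =>
    have up : ∀ c : ∀ k, A k, update (fun j => (UP.mk fun k => a k j : UP 𝒰 A)) j (UP.mk c) =
        fun l => UP.mk fun k => update (a k) j (c k) l := fun c => funext fun l => by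
      by_cases e : l = j
      · subst e; simp only [update_self]
      · simp only [update_of_ne e]
    constructor
    · intro k
      have : ∀ i, ∃ c : A i, φ.Sat (update (a i) j c) → ∀ d, φ.Sat (update (a i) j d) := fun i => by
        by_cases e : ∀ d, φ.Sat (update (a i) j d)
        · exact ⟨⊥, fun _ => e⟩
        · push Not at e
          exact e.imp fun c hc k => absurd k hc
      choose c hc using this
      have k1 := k (UP.mk c)
      rw [up, h] at k1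
      exact k1.mono fun i => hc i
    · intro k c
      obtain ⟨c, rfl⟩ := UP.surj c
      rw [up, h]
      exact k.mono fun i k => k (c i)

theorem UP.models {B : Type} [BooleanAlgebra B] [RelAlg B] {n : ℕ} (φ : Fm n) :
    Models (UP 𝒰 fun _ => B) φ ↔ Models B φ := by
  refine ⟨fun k α => ((UP.sat (𝒰 := 𝒰) φ fun _ => α).1 (k _)).exists.choose_spec, fun k α => ?_⟩
  choose a ha using fun j => UP.surj (α j)
  rw [← funext ha]
  exact (UP.sat φ fun i j => a j i).2 (.of_forall fun _ => k _)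

theorem Peb.symm {n : ℕ} {A B : Type} [BooleanAlgebra A] [RelAlg A] [BooleanAlgebra B] [RelAlg B]
    (h : Peb n A B) : Peb n B A := by
  obtain ⟨P, ⟨α, β, h₀⟩, hP⟩ := h
  refine ⟨fun β α => P α β, ⟨β, α, h₀⟩, fun β α k => ⟨?_, (hP α β k).2.2, (hP α β k).2.1⟩⟩
  obtain ⟨a, b, c, d⟩ := (hP α β k).1
  exact ⟨fun s => (a s).symm, fun i j k => (b i j k).symm, fun i j => (c i j).symm,
    fun i => (d i).symm⟩

theorem exists_nearC {n : ℕ} {B : Type} [BooleanAlgebra B] [RelAlg B]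
    (hB : ∀ φ : Fm n, φ.free = ∅ →
      (∀ (A : Type) [BooleanAlgebra A] [RelAlg A], IsCRA A → Models A φ) → Models B φ) (k : ℕ) :
    ∃ (A : Type) (_ : BooleanAlgebra A) (_ : RelAlg A) (α : Fin n → A), IsCRA A ∧
      Sem k α B fun _ => ⊥ := by
  obtain ⟨J, _, P, h1, h2⟩ := exists_types (n := n) k
  obtain ⟨φ, hφ⟩ := (df_forall fun j => (h1 j).iff (df_const (P j B fun _ => ⊥))).not
  by_contra hc
  refine (hφ B fun _ => ⊥).1 ((sat_foldr _ _).1 (hB ((List.finRange n).foldr Fm.all φ)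
    (Finset.eq_empty_of_forall_notMem fun i => free_foldr _ _ i (List.mem_finRange i))
    fun A _ _ hA => (sat_foldr _ _).2 fun α => (hφ A α).2 fun h => ?_) _) fun _ => Iff.rfl
  exact hc ⟨A, _, _, α, hA, h2 A B _ _ h⟩

end Pool.Agent.Lib.MP_f51cdd_lc.Seu
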